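import Pool.Agent.Helper92.BW.GoalsB
import Pool.Agent.Helper24.FR.VAL0

/-!
# BW, packet BKV: the grid points
-/

namespace Pool.Agent.Helper50.BW

open Pool.Agent.Helper81.CC Pool.Agent.Bin Pool.Agent.Helper92.VP
open Pool.Agent.Helper92.FR hiding DepStmt
open Pool.Agent.Helper92.BW

theorem lv_addv {n : ℕ} {x y : List Qn} (hx : x.length = n) (hy : y.length = n) (i : Fin n) :
    lv n (addv x y) i = lv n x i + lv n y i := by
  unfold lv addv
  have h : (i : ℕ) < (List.zipWith Qn.add x y).length := by
    rw [List.length_zipWith, hx, hy, min_self]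
    exact i.isLt
  rw [List.getD_eq_getElem _ _ h, List.getD_eq_getElem _ _ (by rw [hx]; exact i.isLt),
    List.getD_eq_getElem _ _ (by rw [hy]; exact i.isLt), List.getElem_zipWith, Qn.val_add]

theorem lv_smul {n : ℕ} {x : List Qn} (c : Qn) (hx : x.length = n) (i : Fin n) :
    lv n (smul c x) i = c.val * lv n x i := by
  unfold lv smul
  rw [List.getD_eq_getElem _ _ (by rw [List.length_map, hx]; exact i.isLt),
    List.getD_eq_getElem _ _ (by rw [hx]; exact i.isLt), List.getElem_map, Qn.val_mul]

theorem ip_step {n : ℕ} {x y : List Qn} (c : Qn) (f : Fin n → ℝ) (hx : x.length = n)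
    (hy : y.length = n) :
    ip f (lv n (addv x (smul c y))) = ip f (lv n x) + c.val * ip f (lv n y) := by
  unfold ip
  rw [Finset.mul_sum, ← Finset.sum_add_distrib]
  apply Finset.sum_congr rfl
  intro i _
  have hs : (smul c y).length = n := by
    unfold smul
    rw [List.length_map, hy]
  rw [lv_addv hx hs, lv_smul c hy]
  ring

theorem back_spec {n M : ℕ} {F : Pool.Agent.Helper92.BW.Frm} (hF : Tri n M F) (G e : ℕ) : ∀ m ≤ M, ∀ x : List Qn,
    x.length = n → (back m F G e x).length = n ∧
      (∀ f : Fin n → ℝ, (∀ l < m, ip f (yv n F l) = 0) →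
        ip f (lv n (back m F G e x)) = ip f (lv n x)) ∧
      ∀ j < m, gv n F j ≠ 0 → ip (gv n F j) (lv n (back m F G e x)) = ctr G e j := by
  intro m
  induction m with
  | zero =>
    intro _ x hx
    exact ⟨hx, fun f _ => rfl, fun j hj => absurd hj (by omega)⟩
  | succ m ih =>
    intro hm x hx
    have hy : (yE F m).length = n := hF.ly m (by omega)
    have hg : (gE F m).length = n := hF.lg m (by omega)
    have hx' : (addv x (smul (Qn.sub (gq G (e / (2 * G + 1) ^ m % (2 * G + 1)))
        (dot (gE F m) x)) (yE F m))).length = n := by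
      unfold addv smul
      rw [List.length_zipWith, List.length_map, hx, hy, min_self]
    obtain ⟨h1, h2, h3⟩ := ih (by omega) _ hx'
    refine ⟨h1, ?_, ?_⟩
    · intro f hf
      change ip f (lv n (back m F G e _)) = _
      rw [h2 f fun l hl => hf l (by omega), ip_step _ f hx hy]
      have h4 : ip f (lv n (yE F m)) = 0 := hf m (by omega)
      rw [h4, mul_zero, add_zero]
    · intro j hj hne
      change ip (gv n F j) (lv n (back m F G e _)) = _
      rcases Nat.lt_or_ge j m with hjm | hjm
      · exact h3 j hjm hne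
      · have hjm' : j = m := by omega
        subst hjm'
        rw [h2 (gv n F j) fun l hl => hF.low j (by omega) l hl, ip_step _ _ hx hy]
        rcases hF.diag j (by omega) with hd | hd
        · have h5 : ip (gv n F j) (lv n (yE F j)) = 1 := hd
          rw [h5, mul_one, Qn.val_sub, Pool.Agent.Helper24.FR.dot_val _ n x hg hx]
          have h6 : ip (gv n F j) (lv n x) = ∑ i, lv n (gE F j) i * lv n x i := rfl
          rw [h6]
          unfold ctr
          ring
        · exact absurd hd.1 hne

/-- packet BKV -/
theorem bkv : BkvStmt := by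
  intro n m G e F x hF hx
  obtain ⟨h1, -, h3⟩ := back_spec hF G e m le_rfl x hx
  exact ⟨h1, h3⟩

end Pool.Agent.Helper50.BW
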